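import Pool.Agent.H46.Wal2

namespace Pool.Agent.Results.MP_b4b6e5_an.Unbdd

open MeasureTheory Finset Pool.Agent.H46.Wal

/-- `A_n^α = (α+1)⋯(α+n)/n!` -/
noncomputable def A (α : ℝ) (n : ℕ) : ℝ := (∏ i ∈ Icc 1 n, (α + i)) / n.factorial

/-- the Cesaro means `σ_n^α f` -/
noncomputable def sigma (α : ℝ) (n : ℕ) (f : ℕ → G → ℝ) (x : G) : ℝ :=
  1 / A α n * ∑ k ∈ Icc 1 n, A (α - 1) (n - k) * S k f x

theorem A_succ (α : ℝ) (n : ℕ) : A α (n + 1) = A α n * (1 + α / (n + 1)) := by
  unfold A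
  rw [prod_Icc_succ_top (by omega), Nat.factorial_succ]
  push_cast
  field_simp
  ring

theorem A_pos {α : ℝ} (h : -1 < α) (n : ℕ) : 0 < A α n :=
  div_pos (prod_pos fun i hi => by
    have : (1 : ℝ) ≤ i := by exact_mod_cast (mem_Icc.1 hi).1
    linarith) (by positivity)

theorem bern {β : ℝ} (h0 : 0 ≤ β) (h1 : β ≤ 1) (n : ℕ) :
    (n : ℝ) ^ β ≤ (1 - β / (n + 1)) * ((n : ℝ) + 1) ^ β := by
  have hn : (0 : ℝ) < n + 1 := by positivity
  have b := rpow_one_add_le_one_add_mul_self (s := -(1 / ((n : ℝ) + 1)))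
    (by rw [neg_le_neg_iff, div_le_one hn]; linarith [Nat.cast_nonneg (α := ℝ) n]) h0 h1
  rw [show 1 + -(1 / ((n : ℝ) + 1)) = n / (n + 1) by field_simp; ring,
    Real.div_rpow (by positivity) hn.le, div_le_iff₀ (by positivity)] at b
  refine b.trans (le_of_eq ?_); ring

theorem A_up {α : ℝ} (h0 : 0 < α) (h1 : α < 1) (n : ℕ) (hn : 1 ≤ n) :
    A α n ≤ (1 + α) * (n : ℝ) ^ α := by
  induction n, hn using Nat.le_induction with
  | base => simp [A, add_comm]
  | succ n hn ih =>
    rw [A_succ]; push_cast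
    have b := bern h0.le h1.le n
    have hx : 0 < ((n : ℝ) + 1) ^ α := by positivity
    have hy : 0 ≤ α / (n + 1) := by positivity
    calc _ ≤ (1 + α) * ((1 - α / (n + 1)) * ((n : ℝ) + 1) ^ α) * (1 + α / (n + 1)) := by
          gcongr; exact ih.trans (by gcongr)
      _ = (1 + α) * ((n : ℝ) + 1) ^ α * (1 - (α / (n + 1)) ^ 2) := by ring
      _ ≤ (1 + α) * ((n : ℝ) + 1) ^ α * 1 := by gcongr; nlinarith
      _ = _ := mul_one _

theorem A_low {α : ℝ} (h0 : 0 < α) (h1 : α < 1) (n : ℕ) (hn : 1 ≤ n) :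
    α ≤ A (α - 1) n * (n : ℝ) ^ (1 - α) := by
  induction n, hn using Nat.le_induction with
  | base => simp [A]
  | succ n hn ih =>
    rw [A_succ]; push_cast
    have b := bern (β := 1 - α) (by linarith) (by linarith) n
    have := A_pos (α := α - 1) (by linarith) n
    calc α ≤ A (α - 1) n * ((1 - (1 - α) / (n + 1)) * ((n : ℝ) + 1) ^ (1 - α)) :=
          ih.trans (by gcongr)
      _ = _ := by ring

theorem A_dec {α : ℝ} (h0 : 0 < α) (h1 : α < 1) (l j : ℕ) (hj : j ≤ l + 2) :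
    A (α - 1) (l + 1 + j) ≤ Real.exp (-(1 - α) * j / (2 * (l + 2))) * A (α - 1) (l + 1) := by
  induction j with
  | zero => simp
  | succ j ih =>
    have ih' := ih (by omega)
    rw [← add_assoc, A_succ]
    have hj' : (j : ℝ) + 1 ≤ l + 2 := by exact_mod_cast hj
    have p1 := A_pos (α := α - 1) (by linarith) (l + 1)
    have p2 := A_pos (α := α - 1) (by linarith) (l + 1 + j)
    have f1 : 1 + (α - 1) / (((l + 1 + j : ℕ) : ℝ) + 1) ≤ Real.exp (-(1 - α) / (2 * (l + 2))) := by
      refine le_trans ?_ (Real.add_one_le_exp _)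
      have : (1 - α) / (2 * ((l : ℝ) + 2)) ≤ (1 - α) / (((l + 1 + j : ℕ) : ℝ) + 1) :=
        div_le_div_of_nonneg_left (by linarith) (by positivity) (by push_cast; linarith)
      rw [neg_div, show α - 1 = -(1 - α) by ring, neg_div]; linarith
    calc _ ≤ Real.exp (-(1 - α) * j / (2 * (l + 2))) * A (α - 1) (l + 1)
          * Real.exp (-(1 - α) / (2 * (l + 2))) :=
          (mul_le_mul_of_nonneg_left f1 p2.le).trans (by gcongr)
      _ = _ := by
          rw [mul_right_comm, ← Real.exp_add]; congr 2; push_cast; ring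

theorem result (α : ℝ) (h0 : 0 < α) (h1 : α < 1) (C : ℝ) :
    ∃ (f : ℕ → G → ℝ) (n : ℕ), Martingale f F mu ∧ hp (1 / (1 + α)) f < ⊤ ∧
      ENNReal.ofReal C * hp (1 / (1 + α)) f < lp (1 / (1 + α)) (sigma α (2 ^ n) f) :=
  general (α := α) (θ := Real.exp (-(1 - α) / 2)) (κ := α) (K := 1 + α) h0 h1
    (Real.exp_pos _).le (Real.exp_lt_one_iff.2 (by linarith)) h0
    (by positivity) (A (α - 1)) (A α)
    (fun l => by
      rw [A_succ (α - 1) (l + 1)]
      have := A_pos (α := α - 1) (by linarith) (l + 1)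
      have h2 : (α - 1) / (((l + 1 : ℕ) : ℝ) + 1) ≤ 0 :=
        div_nonpos_of_nonpos_of_nonneg (by linarith) (by positivity)
      nlinarith)
    (fun l => by
      have := A_dec h0 h1 l (l + 2) le_rfl
      rw [show l + 1 + (l + 2) = 2 * l + 3 by ring] at this
      refine this.trans (le_of_eq ?_)
      congr 2; push_cast; field_simp)
    (fun l => by
      have := A_low h0 h1 (l + 1) (by omega)
      have p1 := A_pos (α := α - 1) (by linarith) (l + 1)
      rw [show α - 1 = -(1 - α) by ring, Real.rpow_neg (by positivity), ← div_eq_mul_inv,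
        div_le_iff₀ (by positivity), show -(1 - α) = α - 1 by ring]
      refine this.trans ?_
      gcongr
      push_cast; linarith)
    (fun N _ => A_pos (by linarith) N) (A_up h0 h1) C

end Pool.Agent.Results.MP_b4b6e5_an.Unbdd
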